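import Pool.Agent.H18.GZ.Targets3

/-!
# Row HLD of the board gz (MP_52e316_nt): Hölder's inequality for the approximate functional
equation
-/

set_option autoImplicit false

namespace Pool.Agent.H11.GZ

open MeasureTheory Pool.Agent.H34.GM Pool.Agent.H34.GZ

theorem meas_DF (m q : ℕ) (lam : ℕ → ℂ) : Measurable (DF m q lam) := by
  let c : ℕ → ℂ := fun n => if n.Coprime q then (n : ℂ) ^ (((m : ℂ) - 1) / 2) * lam n else 0
  let f : ℕ → ℝ → ℂ := fun N y => ∑ n ∈ Finset.Icc 1 N,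
    if (n : ℝ) ≤ y ∧ y / 2 < (n : ℝ) then c n else 0
  refine measurable_of_tendsto_metrizable (f := f) (fun N => ?_) ?_
  · refine Finset.measurable_fun_sum _ fun n _ => ?_
    refine Measurable.ite ?_ measurable_const measurable_const
    exact (measurableSet_le measurable_const measurable_id).inter
      (measurableSet_lt (measurable_id.div_const 2) measurable_const)
  · rw [tendsto_pi_nhds]
    intro y
    refine tendsto_const_nhds.congr' ?_
    filter_upwards [Filter.eventually_ge_atTop ⌊y⌋₊] with N hN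
    show DF m q lam y = f N y
    unfold DF
    show _ = ∑ n ∈ Finset.Icc 1 N, if (n : ℝ) ≤ y ∧ y / 2 < (n : ℝ) then c n else 0
    have h1 : ∑ n ∈ Finset.Icc 1 N, (if (n : ℝ) ≤ y ∧ y / 2 < (n : ℝ) then c n else 0) =
        ∑ n ∈ Finset.Icc 1 ⌊y⌋₊, (if (n : ℝ) ≤ y ∧ y / 2 < (n : ℝ) then c n else 0) := by
      symm
      apply Finset.sum_subset (Finset.Icc_subset_Icc le_rfl hN)
      intro n hn hn'
      rw [Finset.mem_Icc] at hn hn'
      rw [if_neg]
      rintro ⟨h2, -⟩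
      exact hn' ⟨hn.1, Nat.le_floor h2⟩
    rw [h1]
    refine Finset.sum_congr rfl fun n hn => ?_
    rw [Finset.mem_Icc] at hn
    have h2 : (n : ℝ) ≤ y := by
      have hy : 0 ≤ y := by
        by_contra h
        rw [Nat.floor_of_nonpos (not_le.1 h).le] at hn
        omega
      exact (Nat.le_floor_iff hy).1 hn.2
    show _ = if (n : ℝ) ≤ y ∧ y / 2 < (n : ℝ) then
      (if n.Coprime q then (n : ℂ) ^ (((m : ℂ) - 1) / 2) * lam n else 0) else 0
    by_cases h3 : y / 2 < (n : ℝ)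
    · by_cases h4 : n.Coprime q
      · rw [if_pos ⟨h3, h4⟩, if_pos ⟨h2, h3⟩, if_pos h4]
      · rw [if_neg (fun h => h4 h.2), if_pos ⟨h2, h3⟩, if_neg h4]
    · rw [if_neg (fun h => h3 h.1), if_neg (fun h => h3 h.2)]

/-- the logarithm -/
theorem log_bd (K0 : ℕ) {s y : ℝ} (hs : 0 < s) (hy : 1 ≤ y) :
    (1 + Real.log y) ^ K0 ≤ (1 + 1 / (s / (K0 + 1))) ^ K0 * y ^ s := by
  have hK : (0 : ℝ) < (K0 : ℝ) + 1 := by positivity
  set δ := s / ((K0 : ℝ) + 1) with hδ
  have hδ0 : 0 < δ := div_pos hs hK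
  have h0 : (0 : ℝ) ≤ 1 + Real.log y := by
    have := Real.log_nonneg hy
    linarith
  have h1 : 1 + Real.log y ≤ (1 + 1 / δ) * y ^ δ := by
    have h2 := Real.log_le_rpow_div (x := y) (ε := δ) (by linarith) hδ0
    have h3 := Real.one_le_rpow hy hδ0.le
    have e : (1 + 1 / δ) * y ^ δ = y ^ δ + y ^ δ / δ := by ring
    rw [e]
    linarith
  have hy0 : (0 : ℝ) < y := by linarith
  calc (1 + Real.log y) ^ K0 ≤ ((1 + 1 / δ) * y ^ δ) ^ K0 := pow_le_pow_left₀ h0 h1 K0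
    _ = (1 + 1 / δ) ^ K0 * (y ^ δ) ^ K0 := mul_pow _ _ _
    _ ≤ (1 + 1 / δ) ^ K0 * y ^ s := by
      refine mul_le_mul_of_nonneg_left ?_ (by positivity)
      rw [← Real.rpow_natCast, ← Real.rpow_mul hy0.le]
      refine Real.rpow_le_rpow_of_exponent_le hy ?_
      rw [hδ, div_mul_eq_mul_div, div_le_iff₀ hK]
      nlinarith

/-- the weight against the polynomial factor -/
theorem w_bd (m : ℕ) {Q y t : ℝ} (hQ : 0 < Q) (hy : 0 < y) (ht0 : 0 ≤ t) (ht2 : t ≤ 2) :
    (1 + (y / Q) ^ 2) ^ m * (min 1 ((Q / y) ^ ((m : ℝ) + 1))) ^ 4 ≤ 2 ^ m * (Q / y) ^ t := by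
  have hz : 0 < y / Q := div_pos hy hQ
  have hz' : 0 < Q / y := div_pos hQ hy
  have hw0 : 0 ≤ min 1 ((Q / y) ^ ((m : ℝ) + 1)) := le_min zero_le_one (Real.rpow_nonneg hz'.le _)
  have hw1 : min 1 ((Q / y) ^ ((m : ℝ) + 1)) ≤ 1 := min_le_left _ _
  rcases le_total (y / Q) 1 with h | h
  · have h1 : 1 ≤ Q / y := by
      rw [one_le_div hy]
      rwa [div_le_one hQ] at h
    have h2 : (1 : ℝ) ≤ (Q / y) ^ t := Real.one_le_rpow h1 ht0
    have h3 : (1 + (y / Q) ^ 2) ^ m ≤ 2 ^ m := by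
      refine pow_le_pow_left₀ (by positivity) ?_ m
      nlinarith
    have h4 : (min 1 ((Q / y) ^ ((m : ℝ) + 1))) ^ 4 ≤ 1 := pow_le_one₀ hw0 hw1
    calc (1 + (y / Q) ^ 2) ^ m * (min 1 ((Q / y) ^ ((m : ℝ) + 1))) ^ 4
        ≤ 2 ^ m * 1 := mul_le_mul h3 h4 (by positivity) (by positivity)
      _ ≤ _ := mul_le_mul_of_nonneg_left h2 (by positivity)
  · have h1 : Q / y ≤ 1 := by
      rw [div_le_one hy]
      rwa [one_le_div hQ] at h
    have h3 : (1 + (y / Q) ^ 2) ^ m ≤ (2 * (y / Q) ^ 2) ^ m := by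
      refine pow_le_pow_left₀ (by positivity) ?_ m
      nlinarith
    have h4 : (min 1 ((Q / y) ^ ((m : ℝ) + 1))) ^ 4 ≤ ((Q / y) ^ (m + 1)) ^ 2 := by
      have h5 : (min 1 ((Q / y) ^ ((m : ℝ) + 1))) ^ 4 ≤
          (min 1 ((Q / y) ^ ((m : ℝ) + 1))) ^ 2 :=
        pow_le_pow_of_le_one hw0 hw1 (by norm_num)
      refine h5.trans (pow_le_pow_left₀ hw0 ?_ 2)
      refine (min_le_right _ _).trans (le_of_eq ?_)
      rw [← Real.rpow_natCast]
      push_cast
      rfl
    have h6 : (2 * (y / Q) ^ 2) ^ m * ((Q / y) ^ (m + 1)) ^ 2 = 2 ^ m * (Q / y) ^ 2 := by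
      rw [mul_pow, ← pow_mul, ← pow_mul]
      have e : y / Q = (Q / y)⁻¹ := by rw [inv_div]
      rw [e, inv_pow]
      have e2 : (Q / y) ^ ((m + 1) * 2) = (Q / y) ^ (2 * m) * (Q / y) ^ 2 := by
        rw [← pow_add]
        congr 1
        ring
      rw [e2]
      have h7 : (Q / y) ^ (2 * m) ≠ 0 := (pow_pos hz' _).ne'
      field_simp
    calc (1 + (y / Q) ^ 2) ^ m * (min 1 ((Q / y) ^ ((m : ℝ) + 1))) ^ 4
        ≤ (2 * (y / Q) ^ 2) ^ m * ((Q / y) ^ (m + 1)) ^ 2 :=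
          mul_le_mul h3 h4 (by positivity) (by positivity)
      _ = 2 ^ m * (Q / y) ^ 2 := h6
      _ ≤ _ := by
        refine mul_le_mul_of_nonneg_left ?_ (by positivity)
        rw [← Real.rpow_natCast]
        exact Real.rpow_le_rpow_of_exponent_ge hz' h1 (by exact_mod_cast ht2)

/-- the integral of a power -/
theorem int_pow {c s : ℝ} (hc : 0 ≤ c) (hs : 0 < s) :
    ∫⁻ y in Set.Ioi (1 : ℝ), ENNReal.ofReal (c * y ^ (-s - 1)) = ENNReal.ofReal (c / s) := by
  have h1 : IntegrableOn (fun y : ℝ => y ^ (-s - 1)) (Set.Ioi 1) :=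
    integrableOn_Ioi_rpow_of_lt (by linarith) one_pos
  rw [← ofReal_integral_eq_lintegral_ofReal (h1.const_mul c)]
  · rw [integral_const_mul, integral_Ioi_rpow_of_lt (by linarith) one_pos]
    congr 1
    rw [Real.one_rpow]
    have : -s - 1 + 1 = -s := by ring
    rw [this]
    field_simp
  · refine (ae_restrict_iff' measurableSet_Ioi).2 (Filter.Eventually.of_forall fun y hy => ?_)
    have hy1 : (1 : ℝ) < y := hy
    exact mul_nonneg hc (Real.rpow_nonneg (by linarith) _)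

theorem pf_HLD : T_HLD := by
  intro m hm ε K0 hε
  have hm0 : (0 : ℝ) < m := by exact_mod_cast hm
  set s : ℝ := min (2 * ε / (5 * m)) (2 / 5) with hs
  have hs0 : 0 < s := lt_min (by positivity) (by norm_num)
  have hs1 : 5 * s ≤ 2 := by
    have := min_le_right (2 * ε / (5 * m)) (2 / 5 : ℝ)
    linarith
  have hs2 : 5 * s * (m / 2) ≤ ε := by
    have h1 := min_le_left (2 * ε / (5 * m)) (2 / 5 : ℝ)
    rw [← hs, le_div_iff₀ (by positivity)] at h1
    linarith
  set CL : ℝ := (1 + 1 / (s / (K0 + 1))) ^ K0 with hCL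
  have hCL0 : 0 < CL := by positivity
  refine ⟨(1 / s) ^ 3 * (CL * 2 ^ m / s), by positivity, ?_⟩
  intro q ι _ lam B hq hB hyp
  have hq1 : (1 : ℝ) ≤ q := by exact_mod_cast hq
  have hq0 : (0 : ℝ) < q := by linarith
  set Q : ℝ := (q : ℝ) ^ ((m : ℝ) / 2) with hQ
  have hQ0 : 0 < Q := Real.rpow_pos_of_pos hq0 _
  have hQ2 : Q ^ 2 = (q : ℝ) ^ m := by
    rw [hQ, ← Real.rpow_natCast, ← Real.rpow_mul hq0.le, ← Real.rpow_natCast]
    congr 1
    push_cast
    ring
  -- the pointwise bound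
  have hpt : ∀ y : ℝ, 1 < y →
      ∑ i, ‖DF m q (lam i) y‖ ^ 4 *
        (y ^ (-((m : ℝ) / 2) - 1) * wJ m q (m + 1) y * y ^ (3 / 4 * (1 + s))) ^ 4 ≤
      B * CL * 2 ^ m * Q ^ (5 * s) * y ^ (-s - 1) := by
    intro y hy
    have hy0 : 0 < y := by linarith
    set w : ℝ := wJ m q (m + 1) y with hw
    have hw' : w = min 1 ((Q / y) ^ ((m : ℝ) + 1)) := rfl
    have e1 : (y ^ (-((m : ℝ) / 2) - 1) * w * y ^ (3 / 4 * (1 + s))) ^ 4 =
        (y ^ (2 * m))⁻¹ * y ^ (3 * s - 1) * w ^ 4 := by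
      rw [mul_pow, mul_pow]
      have e2 : (y ^ (-((m : ℝ) / 2) - 1)) ^ 4 = y ^ (-(2 * (m : ℝ)) - 4) := by
        rw [← Real.rpow_natCast, ← Real.rpow_mul hy0.le]
        congr 1
        push_cast
        ring
      have e3 : (y ^ (3 / 4 * (1 + s))) ^ 4 = y ^ (3 + 3 * s) := by
        rw [← Real.rpow_natCast, ← Real.rpow_mul hy0.le]
        congr 1
        push_cast
        ring
      have e4 : (y ^ (2 * m))⁻¹ = y ^ (-(2 * (m : ℝ))) := by
        rw [Real.rpow_neg hy0.le]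
        congr 1
        rw [← Real.rpow_natCast]
        push_cast
        rfl
      rw [e2, e3, e4]
      have e5 : y ^ (-(2 * (m : ℝ)) - 4) * w ^ 4 * y ^ (3 + 3 * s) =
          y ^ (-(2 * (m : ℝ)) - 4) * y ^ (3 + 3 * s) * w ^ 4 := by ring
      rw [e5, ← Real.rpow_add hy0, ← Real.rpow_add hy0]
      congr 2
      ring
    rw [← Finset.sum_mul, e1]
    have h1 := hyp y hy.le
    have h2 : y ^ 2 / (q : ℝ) ^ m = (y / Q) ^ 2 := by rw [div_pow, hQ2]
    rw [h2] at h1
    have h3 := log_bd K0 hs0 hy.le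
    have h4 := w_bd m hQ0 hy0 (t := 5 * s) (by positivity) hs1
    rw [← hw'] at h4
    have hw0 : 0 ≤ w := by
      rw [hw']
      exact le_min zero_le_one (Real.rpow_nonneg (by positivity) _)
    have hlog : (0 : ℝ) ≤ 1 + Real.log y := by
      have := Real.log_nonneg hy.le
      linarith
    have hy2 : (0 : ℝ) < y ^ (2 * m) := by positivity
    have hR : (0 : ℝ) < y ^ (3 * s - 1) := Real.rpow_pos_of_pos hy0 _
    calc (∑ i, ‖DF m q (lam i) y‖ ^ 4) * ((y ^ (2 * m))⁻¹ * y ^ (3 * s - 1) * w ^ 4)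
        ≤ (B * (1 + Real.log y) ^ K0 * y ^ (2 * m) * (1 + (y / Q) ^ 2) ^ m) *
          ((y ^ (2 * m))⁻¹ * y ^ (3 * s - 1) * w ^ 4) :=
          mul_le_mul_of_nonneg_right h1 (by positivity)
      _ = B * (1 + Real.log y) ^ K0 * y ^ (3 * s - 1) * ((1 + (y / Q) ^ 2) ^ m * w ^ 4) := by
          field_simp
      _ ≤ B * (CL * y ^ s) * y ^ (3 * s - 1) * (2 ^ m * (Q / y) ^ (5 * s)) := by
          refine mul_le_mul ?_ h4 (by positivity) (by positivity)
          refine mul_le_mul_of_nonneg_right ?_ hR.le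
          exact mul_le_mul_of_nonneg_left h3 hB
      _ = B * CL * 2 ^ m * Q ^ (5 * s) * y ^ (-s - 1) := by
          rw [Real.div_rpow hQ0.le hy0.le]
          have e6 : y ^ (-s - 1) = y ^ s * y ^ (3 * s - 1) / y ^ (5 * s) := by
            rw [← Real.rpow_add hy0, ← Real.rpow_sub hy0]
            congr 1
            ring
          rw [e6]
          ring
  -- the functions
  let a : ℝ → ENNReal := fun y => ENNReal.ofReal (y ^ (-(3 / 4 * (1 + s))))
  let b : ι → ℝ → ENNReal := fun i y => ENNReal.ofReal (‖DF m q (lam i) y‖ *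
    (y ^ (-((m : ℝ) / 2) - 1) * wJ m q (m + 1) y * y ^ (3 / 4 * (1 + s))))
  have ha : Measurable a := by
    apply Measurable.ennreal_ofReal
    exact measurable_id.pow_const _
  have hwm : Measurable (fun y : ℝ => wJ m q (m + 1) y) := by
    unfold wJ
    exact measurable_const.min ((measurable_const.div measurable_id).pow_const _)
  have hb : ∀ i, Measurable (b i) := by
    intro i
    apply Measurable.ennreal_ofReal
    refine (meas_DF m q (lam i)).norm.mul ?_
    exact ((measurable_id.pow_const _).mul hwm).mul (measurable_id.pow_const _)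
  have hA : ∫⁻ y in Set.Ioi (1 : ℝ), a y ^ (4 / 3 : ℝ) = ENNReal.ofReal (1 / s) := by
    rw [← int_pow zero_le_one hs0]
    refine setLIntegral_congr_fun measurableSet_Ioi fun y hy => ?_
    have hy0 : (0 : ℝ) < y := lt_trans one_pos hy
    show ENNReal.ofReal (y ^ (-(3 / 4 * (1 + s)))) ^ (4 / 3 : ℝ) = _
    rw [ENNReal.ofReal_rpow_of_pos (Real.rpow_pos_of_pos hy0 _), ← Real.rpow_mul hy0.le, one_mul]
    congr 2
    ring
  have hH : ∀ i, (∫⁻ y in Set.Ioi (1 : ℝ), ENNReal.ofReal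
      (‖DF m q (lam i) y‖ * y ^ (-((m : ℝ) / 2) - 1) * wJ m q (m + 1) y)) ^ 4 ≤
      ENNReal.ofReal (1 / s) ^ 3 * ∫⁻ y in Set.Ioi (1 : ℝ), b i y ^ 4 := by
    intro i
    have hpq : (4 / 3 : ℝ).HolderConjugate 4 := by
      rw [Real.holderConjugate_iff]
      norm_num
    have h1 := ENNReal.lintegral_mul_le_Lp_mul_Lq (volume.restrict (Set.Ioi (1 : ℝ))) hpq
      ha.aemeasurable (hb i).aemeasurable
    have h2 : ∫⁻ y in Set.Ioi (1 : ℝ), ENNReal.ofReal
        (‖DF m q (lam i) y‖ * y ^ (-((m : ℝ) / 2) - 1) * wJ m q (m + 1) y) =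
        ∫⁻ y in Set.Ioi (1 : ℝ), (a * b i) y := by
      refine setLIntegral_congr_fun measurableSet_Ioi fun y hy => ?_
      have hy0 : (0 : ℝ) < y := lt_trans one_pos hy
      show _ = a y * b i y
      show _ = ENNReal.ofReal (y ^ (-(3 / 4 * (1 + s)))) * ENNReal.ofReal (‖DF m q (lam i) y‖ *
        (y ^ (-((m : ℝ) / 2) - 1) * wJ m q (m + 1) y * y ^ (3 / 4 * (1 + s))))
      rw [← ENNReal.ofReal_mul (Real.rpow_nonneg hy0.le _)]
      congr 1
      have e : y ^ (-(3 / 4 * (1 + s))) * y ^ (3 / 4 * (1 + s)) = 1 := by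
        rw [← Real.rpow_add hy0]
        simp
      calc ‖DF m q (lam i) y‖ * y ^ (-((m : ℝ) / 2) - 1) * wJ m q (m + 1) y
          = ‖DF m q (lam i) y‖ * y ^ (-((m : ℝ) / 2) - 1) * wJ m q (m + 1) y *
            (y ^ (-(3 / 4 * (1 + s))) * y ^ (3 / 4 * (1 + s))) := by rw [e, mul_one]
        _ = _ := by ring
    rw [h2]
    refine (pow_le_pow_left' h1 4).trans (le_of_eq ?_)
    rw [mul_pow, hA]
    congr 1
    · rw [← ENNReal.rpow_natCast, ← ENNReal.rpow_mul, ← ENNReal.rpow_natCast]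
      congr 1
      norm_num
    · rw [← ENNReal.rpow_natCast, ← ENNReal.rpow_mul]
      have e : (1 / 4 : ℝ) * ((4 : ℕ) : ℝ) = 1 := by norm_num
      rw [e, ENNReal.rpow_one]
      refine lintegral_congr fun y => ?_
      rw [← ENNReal.rpow_natCast]
      norm_num
  calc ∑ i, (∫⁻ y in Set.Ioi (1 : ℝ), ENNReal.ofReal
      (‖DF m q (lam i) y‖ * y ^ (-((m : ℝ) / 2) - 1) * wJ m q (m + 1) y)) ^ 4
      ≤ ∑ i, ENNReal.ofReal (1 / s) ^ 3 * ∫⁻ y in Set.Ioi (1 : ℝ), b i y ^ 4 :=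
        Finset.sum_le_sum fun i _ => hH i
    _ = ENNReal.ofReal (1 / s) ^ 3 * ∫⁻ y in Set.Ioi (1 : ℝ), ∑ i, b i y ^ 4 := by
        rw [← Finset.mul_sum, lintegral_finsetSum _ fun i _ => (hb i).pow_const 4]
    _ ≤ ENNReal.ofReal (1 / s) ^ 3 * ∫⁻ y in Set.Ioi (1 : ℝ), ENNReal.ofReal
          (B * CL * 2 ^ m * Q ^ (5 * s) * y ^ (-s - 1)) := by
        refine mul_le_mul' le_rfl ?_
        refine setLIntegral_mono_ae ?_ ?_
        · apply AEMeasurable.ennreal_ofReal
          exact (measurable_const.mul (measurable_id.pow_const _)).aemeasurable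
        · refine Filter.Eventually.of_forall fun y hy => ?_
          have hy0 : (0 : ℝ) < y := lt_trans one_pos hy
          refine le_trans (le_of_eq ?_) (ENNReal.ofReal_le_ofReal (hpt y hy))
          rw [ENNReal.ofReal_sum_of_nonneg]
          · refine Finset.sum_congr rfl fun i _ => ?_
            show ENNReal.ofReal _ ^ 4 = _
            have hw0 : 0 ≤ wJ m q (m + 1) y := by
              unfold wJ
              exact le_min zero_le_one (Real.rpow_nonneg (by positivity) _)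
            rw [← ENNReal.ofReal_pow (by positivity), mul_pow]
          · intro i _
            positivity
    _ = ENNReal.ofReal (1 / s) ^ 3 * ENNReal.ofReal (B * CL * 2 ^ m * Q ^ (5 * s) / s) := by
        rw [int_pow (by positivity) hs0]
    _ ≤ ENNReal.ofReal ((1 / s) ^ 3 * (CL * 2 ^ m / s) * B * (q : ℝ) ^ ε) := by
        rw [← ENNReal.ofReal_pow (by positivity), ← ENNReal.ofReal_mul (by positivity)]
        apply ENNReal.ofReal_le_ofReal
        have h1 : Q ^ (5 * s) ≤ (q : ℝ) ^ ε := by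
          rw [hQ, ← Real.rpow_mul hq0.le]
          refine Real.rpow_le_rpow_of_exponent_le hq1 ?_
          linarith
        have e : (1 / s) ^ 3 * (B * CL * 2 ^ m * Q ^ (5 * s) / s) =
            (1 / s) ^ 3 * (CL * 2 ^ m / s) * B * Q ^ (5 * s) := by ring
        rw [e]
        exact mul_le_mul_of_nonneg_left h1 (by positivity)

end Pool.Agent.H11.GZ
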