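import Pool.Agent.H16.GZ.Targets4
import Pool.Agent.H34.GM.MSR

/-!
# Row MKZ of the board gz (MP_52e316_nt): measurability of the kernels
-/

set_option autoImplicit false

namespace Pool.Agent.H11.GZ

open MeasureTheory Pool.Agent.H34.GM Pool.Agent.H34.GZ

theorem mkz_kk {m : ℕ} {r : ℝ} {β : Type} [MeasurableSpace β] (Ψ : Mat m → β) (α : Mat m)
    (hkk : Measurable (fun p : V m × V m =>
      ((fun i j => kk r (mt p.1) α (mt p.2) i j) : V m)))
    (hΨ : Measurable (fun z : V m => Ψ (mt z))) :
    Measurable (fun p : V m × V m => Ψ (kk r (mt p.2) α (mt p.1))) := by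
  have h2 : Measurable (fun p : V m × V m => (p.2, p.1)) := measurable_snd.prodMk measurable_fst
  have h4 := hkk.comp h2
  have h5 := hΨ.comp h4
  have h6 : ((fun z : V m => Ψ (mt z)) ∘ ((fun p : V m × V m =>
      ((fun i j => kk r (mt p.1) α (mt p.2) i j) : V m)) ∘ (fun p : V m × V m => (p.2, p.1)))) =
      (fun p => Ψ (kk r (mt p.2) α (mt p.1))) := by
    funext x
    show Ψ (mt (fun i j => kk r (mt x.2) α (mt x.1) i j)) = _
    have e : ∀ A : Mat m, mt (fun i j => A i j) = A := by
      intro A
      ext i j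
      rfl
    rw [e]
  rw [← h6]
  exact h5

theorem mkz_of (hMSR : T_MSR) : T_MKZ := by
  classical
  intro m q y x w hm
  obtain ⟨hms, -, -⟩ := hMSR
  obtain ⟨-, -, -, hsz, -, -, hkk, hΦc⟩ := hms m
  have hct : Countable (ZM m) := (inferInstance : Countable (Fin m → Fin m → ℤ))
  constructor
  · unfold Pz
    refine Measurable.tsum fun α => ?_
    refine Measurable.ite ?_ measurable_const measurable_const
    have h1 := mkz_kk (fun z => sz z) (cR α) (hkk (aN (cR α)) (cR α)) hsz
    have h2 : MeasurableSet {p : V m × V m | sz (kk (aN (cR α)) (mt p.2) (cR α) (mt p.1)) ≤ 2} :=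
      measurableSet_le h1 measurable_const
    refine MeasurableSet.inter (MeasurableSet.const _) ?_
    refine MeasurableSet.inter (MeasurableSet.const _) ?_
    refine MeasurableSet.inter (MeasurableSet.const _) ?_
    exact MeasurableSet.inter (MeasurableSet.const _) h2
  · intro Φ hΦ
    unfold Cz
    refine Measurable.tsum fun α => ?_
    refine Measurable.ite (MeasurableSet.const _) ?_ measurable_const
    exact mkz_kk Φ (cR α) (hkk (aN (cR α)) (cR α)) (hΦc Φ hΦ.cont)

theorem pf_MKZ : T_MKZ := mkz_of pf_MSR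

end Pool.Agent.H11.GZ
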