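import Pool.Agent.H23.GZ.Targets5

/-!
# Row SC1 of the board gz (MP_52e316_nt): change of variables for the scaling of one orthogonal
component
-/

set_option autoImplicit false

namespace Pool.Agent.H11.GZ

open MeasureTheory Pool.Agent.H34.GM Pool.Agent.H34.GZ

/-! ### Singular matrices are a null set -/

theorem meas_det (m : ℕ) : Measurable fun z : V m => (mt z).det := by
  have : Continuous fun z : V m => (mt z).det := by
    apply Continuous.matrix_det
    exact continuous_id
  exact this.measurable

theorem ae_det (m : ℕ) : ∀ᵐ z : V m, (mt z).det ≠ 0 := by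
  have hs : MeasurableSet {z : V m | (mt z).det ≠ 0} :=
    (meas_det m) (measurableSet_singleton 0).compl
  let e : V m := fun i j => (1 : Mat m) i j
  let L : ℝ →ₗ[ℝ] V m := LinearMap.toSpanSingleton ℝ (V m) e
  refine ae_mem_of_ae_add_linearMap_mem L (volume : Measure ℝ) (volume : Measure (V m)) hs ?_
  intro y
  let p : Polynomial ℝ := (-(mt y)).charpoly
  have hp : p ≠ 0 := (Matrix.charpoly_monic _).ne_zero
  have hfin : {x : ℝ | p.IsRoot x}.Finite := Polynomial.finite_setOfPred_isRoot hp
  have h0 : (volume : Measure ℝ) {x : ℝ | p.IsRoot x} = 0 := hfin.measure_zero _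
  rw [ae_iff]
  refine measure_mono_null ?_ h0
  intro x hx
  have hx' : ¬ (mt (y + L x)).det ≠ 0 := hx
  rw [not_not] at hx'
  show p.eval x = 0
  rw [Matrix.eval_charpoly, ← hx']
  congr 1
  ext i j
  show (Matrix.scalar (Fin m) x - -(mt y)) i j = y i j + x * (1 : Mat m) i j
  rw [Matrix.sub_apply, Matrix.neg_apply, Matrix.scalar_apply, Matrix.diagonal_apply,
    Matrix.one_apply]
  split_ifs
  · show x - -(y i j) = _
    ring
  · show 0 - -(y i j) = _
    ring

/-! ### The linear map -/

section

variable {m : ℕ}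

/-- multiplication of the orthogonal component by `t` -/
noncomputable def lS (W : Submodule ℝ (EuclideanSpace ℝ (Fin m))) (t : ℝ) :
    EuclideanSpace ℝ (Fin m) →ₗ[ℝ] EuclideanSpace ℝ (Fin m) :=
  LinearMap.id + (t - 1) • (LinearMap.id - (W.starProjection : _ →ₗ[ℝ] _))

theorem lS_apply (W : Submodule ℝ (EuclideanSpace ℝ (Fin m))) (t : ℝ)
    (c : EuclideanSpace ℝ (Fin m)) : lS W t c = c + (t - 1) • (c - W.starProjection c) := rfl

theorem lS_det (W : Submodule ℝ (EuclideanSpace ℝ (Fin m))) (t : ℝ) {d : ℕ}
    (hd : Module.finrank ℝ W = d) : LinearMap.det (lS W t) = t ^ (m - d) := by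
  have hW : ∀ v ∈ W, lS W t v = v := by
    intro v hv
    rw [lS_apply, Submodule.starProjection_eq_self_iff.2 hv, sub_self, smul_zero, add_zero]
  have he : W ≤ W.comap (lS W t) := by
    intro v hv
    rw [Submodule.mem_comap, hW v hv]
    exact hv
  rw [LinearMap.det_eq_det_mul_det W (lS W t) he]
  have h1 : (lS W t).restrict he = LinearMap.id := by
    ext v
    show ((lS W t) (v : EuclideanSpace ℝ (Fin m))).ofLp _ = _
    rw [hW _ v.2]
    rfl
  have h2 : W.mapQ W (lS W t) he = t • LinearMap.id := by
    apply Submodule.linearMap_qext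
    ext1 v
    show W.mkQ (lS W t v) = t • W.mkQ v
    have h3 : lS W t v = t • v + (1 - t) • W.starProjection v := by
      rw [lS_apply]
      module
    have h4 : W.mkQ (W.starProjection v) = 0 := by
      rw [Submodule.mkQ_apply, Submodule.Quotient.mk_eq_zero]
      exact Submodule.starProjection_apply_mem W v
    rw [h3, map_add, map_smul, map_smul, h4, smul_zero, add_zero]
  rw [h1, h2, LinearMap.det_id, one_mul, LinearMap.det_smul, LinearMap.det_id, mul_one]
  congr 1
  have h5 := Submodule.finrank_quotient_add_finrank W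
  rw [finrank_euclideanSpace_fin, hd] at h5
  omega

theorem lS_int (W : Submodule ℝ (EuclideanSpace ℝ (Fin m))) {t : ℝ} (ht : 0 < t) {d : ℕ}
    (hd : Module.finrank ℝ W = d) (F : EuclideanSpace ℝ (Fin m) → ENNReal) (hF : Measurable F) :
    ENNReal.ofReal (t ^ (m - d)) * ∫⁻ c, F (lS W t c) = ∫⁻ c, F c := by
  have h0 : LinearMap.det (lS W t) ≠ 0 := by
    rw [lS_det W t hd]
    positivity
  have h1 := Measure.map_linearMap_addHaar_eq_smul_addHaar
    (volume : Measure (EuclideanSpace ℝ (Fin m))) h0
  have hm : Measurable (lS W t) := (lS W t).continuous_of_finiteDimensional.measurable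
  rw [← lintegral_map hF hm, h1, lintegral_smul_measure, lS_det W t hd, smul_eq_mul, ← mul_assoc,
    ← ENNReal.ofReal_mul (by positivity)]
  have h2 : t ^ (m - d) * |(t ^ (m - d))⁻¹| = 1 := by
    rw [abs_of_pos (by positivity)]
    exact mul_inv_cancel₀ (by positivity)
  rw [h2, ENNReal.ofReal_one, one_mul]

/-! ### Replacing a column -/

theorem col_rc_ne (j : Fin m) (z : V m) (c : EuclideanSpace ℝ (Fin m)) {l : Fin m} (h : l ≠ j) :
    col (mt (rc j z c)) l = col (mt z) l := by
  unfold col
  congr 1
  funext i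
  show (if l = j then c i else z i l) = z i l
  rw [if_neg h]

theorem col_rc_self (j : Fin m) (z : V m) (c : EuclideanSpace ℝ (Fin m)) :
    col (mt (rc j z c)) j = c := by
  ext i
  show (if j = j then c i else z i j) = c i
  rw [if_pos rfl]

theorem span_rc (j : Fin m) (z : V m) (c : EuclideanSpace ℝ (Fin m)) :
    Submodule.span ℝ (col (mt (rc j z c)) '' Set.Iio j) =
      Submodule.span ℝ (col (mt z) '' Set.Iio j) := by
  congr 1
  refine Set.image_congr fun l hl => ?_
  exact col_rc_ne j z c (ne_of_lt hl)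

theorem sc_rc (hG : T_GSM) (j : Fin m) (t : ℝ) (z : V m) (c : EuclideanSpace ℝ (Fin m)) :
    (fun i l => sc (Function.update 1 j t) (mt (rc j z c)) i l) =
      rc j z (lS (Submodule.span ℝ (col (mt z) '' Set.Iio j)) t c) := by
  have h1 := (hG m (mt (rc j z c))).2.2.2.2.2.1 j
  simp only [span_rc, col_rc_self] at h1
  funext i l
  show rc j z c i l + (Function.update (1 : Fin m → ℝ) j t l - 1) * oc (mt (rc j z c)) l i = _
  unfold rc
  by_cases hl : l = j
  · subst hl
    rw [if_pos rfl, if_pos rfl, Function.update_self]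
    have h2 : oc (mt (rc l z c)) l i =
        (c - (Submodule.span ℝ (col (mt z) '' Set.Iio l)).starProjection c) i := by rw [h1]
    unfold rc at h2
    rw [h2, lS_apply]
    rfl
  · rw [if_neg hl, if_neg hl, Function.update_of_ne hl]
    simp

theorem meas_rc (j : Fin m) (z : V m) : Measurable (rc j z) := by
  refine measurable_pi_lambda _ fun i => measurable_pi_lambda _ fun l => ?_
  unfold rc
  by_cases hl : l = j
  · simp only [if_pos hl]
    exact (measurable_pi_apply i).comp (WithLp.measurable_ofLp 2 _)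
  · simp only [if_neg hl]
    exact measurable_const

end

theorem pf_SC1 : T_GSM → T_SCP → T_CFB → T_SC1 := by
  intro hG hS hC m j t ht f hf
  have hmp := hC m j
  set μ : Measure (V m) := volume.restrict {z : V m | ∀ i, z i j ∈ Set.Icc (0 : ℝ) 1} with hμ
  have hρ : ∀ l : Fin m, 0 < Function.update (1 : Fin m → ℝ) j t l := by
    intro l
    by_cases hl : l = j
    · subst hl
      rw [Function.update_self]
      exact ht
    · rw [Function.update_of_ne hl]
      exact one_pos
  have hsc := (hS m _ hρ).2.2.2.2.2.1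
  have hg : Measurable fun z : V m => f (fun i l => sc (Function.update 1 j t) (mt z) i l) :=
    hf.comp hsc
  have hrc : Measurable fun p : V m × EuclideanSpace ℝ (Fin m) => rc j p.1 p.2 := hmp.measurable
  -- a general formula
  have hint : ∀ g : V m → ENNReal, Measurable g → ∫⁻ z, g z =
      ∫⁻ z, (∫⁻ c : EuclideanSpace ℝ (Fin m), g (rc j z c)) ∂μ := by
    intro g hg
    have hgm : Measurable fun p : V m × EuclideanSpace ℝ (Fin m) => g (rc j p.1 p.2) :=
      hg.comp hrc
    rw [← hmp.lintegral_comp hg, lintegral_prod _ hgm.aemeasurable]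
  rw [hint _ hg, hint f hf]
  -- almost all `z` have independent columns before `j`
  have hae : ∀ᵐ z ∂μ, Module.finrank ℝ (Submodule.span ℝ (col (mt z) '' Set.Iio j)) = (j : ℕ) := by
    have h1 : ∀ᵐ p ∂(μ.prod (volume : Measure (EuclideanSpace ℝ (Fin m)))),
        (mt (rc j p.1 p.2)).det ≠ 0 := hmp.quasiMeasurePreserving.ae (ae_det m)
    have h2 := Measure.ae_ae_of_ae_prod h1
    filter_upwards [h2] with z hz
    obtain ⟨c, hc⟩ := hz.exists
    have h3 := (hG m (mt (rc j z c))).2.2.2.2.2.2 hc j
    rw [span_rc] at h3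
    exact h3
  have hmeas : Measurable fun z : V m => ∫⁻ c : EuclideanSpace ℝ (Fin m),
      f (fun i l => sc (Function.update 1 j t) (mt (rc j z c)) i l) :=
    (hg.comp hrc).lintegral_prod_right'
  rw [← lintegral_const_mul _ hmeas]
  refine lintegral_congr_ae ?_
  filter_upwards [hae] with z hz
  have h1 := lS_int (Submodule.span ℝ (col (mt z) '' Set.Iio j)) ht hz (fun c => f (rc j z c))
    (hf.comp (meas_rc j z))
  rw [← h1]
  congr 1
  refine lintegral_congr fun c => ?_
  rw [sc_rc hG]

end Pool.Agent.H11.GZ
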